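import Mathlib

/-! The Heisenberg-type group on finitely supported sequences times all sequences over ZMod 2,
with its centralizers. -/

namespace Pool.Agent.X220

open Finsupp

/-- pairing of a finitely supported sequence and a sequence -/
noncomputable def pr (q : ℕ →₀ ZMod 2) (b : ℕ → ZMod 2) : ZMod 2 :=
  q.sum fun i c => c * b i

theorem pr_add_left (q q' : ℕ →₀ ZMod 2) (b : ℕ → ZMod 2) :
    pr (q + q') b = pr q b + pr q' b := by
  unfold pr
  rw [Finsupp.sum_add_index']
  · intro i; simp
  · intro i c d; rw [add_mul]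

theorem pr_add_right (q : ℕ →₀ ZMod 2) (b b' : ℕ → ZMod 2) :
    pr q (b + b') = pr q b + pr q b' := by
  unfold pr
  rw [← Finsupp.sum_add]
  simp only [Pi.add_apply, mul_add]

theorem pr_smul_left (c : ZMod 2) (q : ℕ →₀ ZMod 2) (b : ℕ → ZMod 2) :
    pr (c • q) b = c * pr q b := by
  unfold pr
  rw [Finsupp.sum_smul_index' (by intro i; simp), Finsupp.mul_sum]
  simp only [smul_eq_mul, mul_assoc]

theorem pr_smul_right (c : ZMod 2) (q : ℕ →₀ ZMod 2) (b : ℕ → ZMod 2) :
    pr q (c • b) = c * pr q b := by
  unfold pr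
  rw [Finsupp.mul_sum]
  apply Finsupp.sum_congr
  intro i _
  simp only [Pi.smul_apply, smul_eq_mul]
  ring

@[simp] theorem pr_zero_left (b : ℕ → ZMod 2) : pr 0 b = 0 := by simp [pr]

@[simp] theorem pr_zero_right (q : ℕ →₀ ZMod 2) : pr q 0 = 0 := by simp [pr]

theorem pr_single (i : ℕ) (b : ℕ → ZMod 2) : pr (single i 1) b = b i := by
  simp [pr]

theorem pr_pi_single (q : ℕ →₀ ZMod 2) (i : ℕ) : pr q (Pi.single i 1) = q i := by
  unfold pr
  rw [Finsupp.sum, Finset.sum_eq_single i]
  · simp
  · intro j _ hj
    simp [Pi.single_apply, hj]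
  · intro hi
    simp at hi
    simp [hi]

/-- The group. -/
@[ext] structure Heis where
  q : ℕ →₀ ZMod 2
  b : ℕ → ZMod 2
  z : ZMod 2

namespace Heis

noncomputable instance : Mul Heis :=
  ⟨fun x y => ⟨x.q + y.q, x.b + y.b, x.z + y.z + pr x.q y.b⟩⟩

instance : One Heis := ⟨⟨0, 0, 0⟩⟩

noncomputable instance : Inv Heis := ⟨fun x => ⟨-x.q, -x.b, -x.z + pr x.q x.b⟩⟩

@[simp] theorem mul_q (x y : Heis) : (x * y).q = x.q + y.q := rfl
@[simp] theorem mul_b (x y : Heis) : (x * y).b = x.b + y.b := rfl
@[simp] theorem mul_z (x y : Heis) : (x * y).z = x.z + y.z + pr x.q y.b := rfl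
@[simp] theorem one_q : (1 : Heis).q = 0 := rfl
@[simp] theorem one_b : (1 : Heis).b = 0 := rfl
@[simp] theorem one_z : (1 : Heis).z = 0 := rfl
@[simp] theorem inv_q (x : Heis) : (x⁻¹).q = -x.q := rfl
@[simp] theorem inv_b (x : Heis) : (x⁻¹).b = -x.b := rfl
@[simp] theorem inv_z (x : Heis) : (x⁻¹).z = -x.z + pr x.q x.b := rfl

noncomputable instance : Group Heis :=
  Group.ofLeftAxioms
    (fun x y w => by
      apply Heis.ext
      · simp [add_assoc]
      · simp [add_assoc]
      · simp only [mul_z, mul_q, mul_b, pr_add_left, pr_add_right]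
        ring)
    (fun x => by
      apply Heis.ext <;> simp)
    (fun x => by
      apply Heis.ext
      · simp
      · simp
      · have h : pr (-x.q) x.b = - pr x.q x.b := by
          rw [← neg_one_smul (ZMod 2) x.q, pr_smul_left, neg_one_mul]
        simp only [mul_z, inv_z, inv_q, h, one_z]
        ring)

theorem commute_iff (x y : Heis) : x * y = y * x ↔ pr x.q y.b = pr y.q x.b := by
  constructor
  · intro h
    have := congrArg Heis.z h
    simp only [mul_z] at this
    rw [add_comm y.z x.z] at this
    exact add_left_cancel this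
  · intro h
    apply Heis.ext
    · simp [add_comm]
    · simp [add_comm]
    · simp only [mul_z, h]
      ring

/-- The functional attached to an element. -/
noncomputable def lam (x : Heis) : ((ℕ →₀ ZMod 2) × (ℕ → ZMod 2)) →ₗ[ZMod 2] ZMod 2 where
  toFun v := pr x.q v.2 - pr v.1 x.b
  map_add' v w := by
    simp only [Prod.fst_add, Prod.snd_add, pr_add_left, pr_add_right]
    ring
  map_smul' c v := by
    simp only [Prod.smul_fst, Prod.smul_snd, pr_smul_left, pr_smul_right, RingHom.id_apply,
      smul_eq_mul]
    ring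

theorem lam_apply (x : Heis) (v : (ℕ →₀ ZMod 2) × (ℕ → ZMod 2)) :
    lam x v = pr x.q v.2 - pr v.1 x.b := rfl

theorem commute_lam (x y : Heis) : x * y = y * x ↔ lam x (y.q, y.b) = 0 := by
  rw [commute_iff, lam_apply, sub_eq_zero]

theorem lam_inj (x y : Heis) (h : lam x = lam y) : x.q = y.q ∧ x.b = y.b := by
  constructor
  · ext i
    have := congrArg (fun l => l (0, Pi.single i 1)) h
    simp only [lam_apply, pr_pi_single, pr_zero_left, sub_zero] at this
    exact this
  · funext i
    have := congrArg (fun l => l (single i 1, 0)) h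
    simp only [lam_apply, pr_single, pr_zero_right, zero_sub, neg_inj] at this
    exact this

/-- A double centralizer of a set sits in the span of its functionals. -/
theorem lam_mem_span (F : Set Heis) (hF : F.Finite) (x : Heis)
    (hx : x ∈ Set.centralizer (Set.centralizer F)) :
    lam x ∈ Submodule.span (ZMod 2) (lam '' F) := by
  have : Finite F := hF
  have h := mem_span_of_iInf_ker_le_ker (L := fun f : F => lam f.1) (K := lam x) (by
    intro v hv
    simp only [Submodule.mem_iInf, LinearMap.mem_ker] at hv
    rw [LinearMap.mem_ker]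
    have hy : (⟨v.1, v.2, 0⟩ : Heis) ∈ Set.centralizer F := by
      intro f hf
      exact (commute_lam _ _).2 (hv ⟨f, hf⟩)
    exact (commute_lam x ⟨v.1, v.2, 0⟩).1 (hx _ hy).symm)
  have e : Set.range (fun f : F => lam f.1) = lam '' F := by
    ext l
    simp
  rw [e] at h
  exact h

/-- Double centralizers of finite sets are finite. -/
theorem finite_dc (F : Set Heis) (hF : F.Finite) :
    (Set.centralizer (Set.centralizer F)).Finite := by
  let W := Submodule.span (ZMod 2) (lam '' F)
  have hW : Module.Finite (ZMod 2) W := Module.Finite.span_of_finite (ZMod 2) (hF.image lam)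
  have hWf : Finite W := Module.finite_of_finite (ZMod 2)
  let g : Set.centralizer (Set.centralizer F) → W × ZMod 2 :=
    fun x => (⟨lam x.1, lam_mem_span F hF x.1 x.2⟩, x.1.z)
  have hg : Function.Injective g := by
    intro x y h
    have h1 := Prod.mk.inj h
    have h2 := lam_inj x.1 y.1 (congrArg Subtype.val h1.1)
    exact Subtype.ext (Heis.ext h2.1 h2.2 h1.2)
  have : Finite (Set.centralizer (Set.centralizer F)) := Finite.of_injective g hg
  exact Set.toFinite _

/-- The double centralizer of one element has at most four elements. -/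
theorem card_dc (f : Heis) :
    Nat.card (Set.centralizer (Set.centralizer ({f} : Set Heis))) ≤ 4 := by
  have hspan : ∀ x ∈ Set.centralizer (Set.centralizer ({f} : Set Heis)),
      lam x = 0 ∨ lam x = lam f := by
    intro x hx
    have h := lam_mem_span {f} (Set.finite_singleton f) x hx
    rw [Set.image_singleton, Submodule.mem_span_singleton] at h
    obtain ⟨c, hc⟩ := h
    have : ∀ c : ZMod 2, c = 0 ∨ c = 1 := by decide
    rcases this c with rfl | rfl
    · left
      rw [← hc, zero_smul]
    · right
      rw [← hc, one_smul]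
  let g : Set.centralizer (Set.centralizer ({f} : Set Heis)) → Prop × ZMod 2 :=
    fun x => (lam x.1 = 0, x.1.z)
  have hg : Function.Injective g := by
    intro x y h
    have h1 := Prod.mk.inj h
    have h3 : lam x.1 = lam y.1 := by
      by_cases hx0 : lam x.1 = 0
      · have hy0 : lam y.1 = 0 := h1.1 ▸ hx0
        rw [hx0, hy0]
      · have hy0 : lam y.1 ≠ 0 := fun h' => hx0 (h1.1.symm ▸ h')
        rw [(hspan _ x.2).resolve_left hx0, (hspan _ y.2).resolve_left hy0]
    have h2 := lam_inj x.1 y.1 h3
    exact Subtype.ext (Heis.ext h2.1 h2.2 h1.2)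
  refine (Nat.card_le_card_of_injective g hg).trans ?_
  rw [Nat.card_prod]
  simp

end Heis

end Pool.Agent.X220
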